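import Pool.Agent.Helper112.Lp.Defs
import Pool.Agent.Helper112.Lp.Kps

open Finset
open Pool.Agent.Helper112.LP

namespace Pool.Agent.Y594.LPC

/-- there is a representation `N = u v` of the required shape -/
def Rep (p cr J α β a g1 g2 N : ℕ) : Prop :=
  ∃ u v d1 d2 s1 s2 : ℕ, 1 ≤ u ∧ 1 ≤ v ∧ u ≤ p - 1 ∧ v ≤ p - 1 ∧ N = u * v ∧
    u * v ≡ cr [MOD p] ∧ Nat.log 2 u = α ∧ Nat.log 2 v = β ∧
    u = d1 * g1 * s1 ∧ v = d2 * g2 * s2 ∧ d1 * d2 = a ∧ (s1 * s2).Coprime (PP J)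

/-- the pairs counted for a binary length `κ` -/
def box (p J α β a g1 g2 r κ : ℕ) : Finset (ℕ × ℕ) :=
  ((Ioc 0 (0 + min (p - 1) (2 ^ (α + 1 - κ) / g1)) ×ˢ
    Ioc 0 (0 + min (p - 1) (2 ^ (β + κ + 2) / (a * g2)))).filter
      (fun st => st.1 * st.2 ≡ r [MOD p] ∧ (st.1 * st.2).Coprime (PP J)))

theorem rep_mem {p cr J α β a g1 g2 N r : ℕ} (hcr : cr.Coprime p) (hr : a * g1 * g2 * r ≡ cr [MOD p])
    (h : Rep p cr J α β a g1 g2 N) :
    ∃ κ ∈ (a.divisors.image (Nat.log 2)).filter (fun κ => κ ≤ α),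
      ∃ st ∈ box p J α β a g1 g2 r κ, N = a * g1 * g2 * (st.1 * st.2) := by
  obtain ⟨u, v, d1, d2, s1, s2, hu, hv, hup, hvp, hN, hmod, hα, hβ, hud, hvd, hda, hco⟩ := h
  have hd1 : d1 ≠ 0 := by rintro rfl; simp at hud; omega
  have hg1 : g1 ≠ 0 := by rintro rfl; simp at hud; omega
  have hs1 : s1 ≠ 0 := by rintro rfl; simp at hud; omega
  have hd2 : d2 ≠ 0 := by rintro rfl; simp at hvd; omega
  have hg2 : g2 ≠ 0 := by rintro rfl; simp at hvd; omega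
  have hs2 : s2 ≠ 0 := by rintro rfl; simp at hvd; omega
  have ha : a ≠ 0 := by rw [← hda]; exact mul_ne_zero hd1 hd2
  have hd1u : d1 ≤ u := by
    rw [hud, mul_assoc]; exact Nat.le_mul_of_pos_right _ (Nat.pos_of_ne_zero (mul_ne_zero hg1 hs1))
  have hκα : Nat.log 2 d1 ≤ α := by rw [← hα]; exact Nat.log_mono_right hd1u
  refine ⟨Nat.log 2 d1, ?_, (s1, s2), ?_, ?_⟩
  · rw [mem_filter, mem_image]
    refine ⟨⟨d1, ?_, rfl⟩, hκα⟩
    rw [Nat.mem_divisors]; exact ⟨⟨d2, hda.symm⟩, ha⟩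
  · have h1 : 2 ^ Nat.log 2 d1 ≤ d1 := Nat.pow_log_le_self 2 hd1
    have h2 : d1 < 2 ^ (Nat.log 2 d1 + 1) := Nat.lt_pow_succ_log_self (by norm_num) d1
    have h3 : u < 2 ^ (α + 1) := by rw [← hα]; exact Nat.lt_pow_succ_log_self (by norm_num) u
    have h4 : v < 2 ^ (β + 1) := by rw [← hβ]; exact Nat.lt_pow_succ_log_self (by norm_num) v
    rw [box, mem_filter, mem_product, mem_Ioc, mem_Ioc]
    refine ⟨⟨⟨Nat.pos_of_ne_zero hs1, ?_⟩, ⟨Nat.pos_of_ne_zero hs2, ?_⟩⟩, ?_, hco⟩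
    · rw [zero_add, le_min_iff]
      constructor
      · refine le_trans ?_ hup
        rw [hud]; exact Nat.le_mul_of_pos_left _ (Nat.pos_of_ne_zero (mul_ne_zero hd1 hg1))
      · rw [Nat.le_div_iff_mul_le (Nat.pos_of_ne_zero hg1)]
        have h5 : 2 ^ Nat.log 2 d1 * (s1 * g1) < 2 ^ Nat.log 2 d1 * 2 ^ (α + 1 - Nat.log 2 d1) := by
          rw [← pow_add, Nat.add_sub_cancel' (by omega)]
          calc 2 ^ Nat.log 2 d1 * (s1 * g1) ≤ d1 * (s1 * g1) := Nat.mul_le_mul_right _ h1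
            _ = u := by rw [hud]; ring
            _ < _ := h3
        exact (lt_of_mul_lt_mul_left h5 (Nat.zero_le _)).le
    · rw [zero_add, le_min_iff]
      constructor
      · refine le_trans ?_ hvp
        rw [hvd]; exact Nat.le_mul_of_pos_left _ (Nat.pos_of_ne_zero (mul_ne_zero hd2 hg2))
      · rw [Nat.le_div_iff_mul_le (Nat.pos_of_ne_zero (mul_ne_zero ha hg2))]
        calc s2 * (a * g2) = d1 * v := by rw [← hda, hvd]; ring
          _ ≤ 2 ^ (Nat.log 2 d1 + 1) * 2 ^ (β + 1) := Nat.mul_le_mul h2.le h4.le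
          _ = 2 ^ (β + Nat.log 2 d1 + 2) := by rw [← pow_add]; congr 1; omega
    · -- s1 s2 ≡ r
      have h5 : a * g1 * g2 * (s1 * s2) ≡ a * g1 * g2 * r [MOD p] := by
        refine Nat.ModEq.trans ?_ hr.symm
        have : a * g1 * g2 * (s1 * s2) = u * v := by rw [← hda, hud, hvd]; ring
        rw [this]; exact hmod
      have h6 : Nat.gcd p (a * g1 * g2) = 1 := by
        have h7 : Nat.Coprime (a * g1 * g2 * r) p := by
          have := hr.gcd_eq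
          rw [Nat.Coprime, this]; exact hcr
        exact (Nat.Coprime.coprime_mul_right h7).symm
      exact Nat.ModEq.cancel_left_of_coprime h6 h5
  · rw [hN, hud, hvd, ← hda]; ring

theorem rep_coprime {p cr J α β a g1 g2 N : ℕ} (hcr : cr.Coprime p) (h : Rep p cr J α β a g1 g2 N) :
    ∃ r, r.Coprime p ∧ a * g1 * g2 * r ≡ cr [MOD p] := by
  obtain ⟨u, v, d1, d2, s1, s2, hu, hv, hup, hvp, hN, hmod, hα, hβ, hud, hvd, hda, hco⟩ := h
  have h1 : a * g1 * g2 * (s1 * s2) = u * v := by rw [← hda, hud, hvd]; ring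
  refine ⟨s1 * s2, ?_, by rw [h1]; exact hmod⟩
  have h7 : Nat.Coprime (a * g1 * g2 * (s1 * s2)) p := by
    rw [h1, Nat.Coprime, hmod.gcd_eq]; exact hcr
  exact Nat.Coprime.coprime_mul_left h7

/-- counting lemma -/
theorem count_rep : ∃ (K : ℕ) (C : ℝ), 0 < C ∧ ∀ p : ℕ, p.Prime → ∀ cr : ℕ, cr.Coprime p → ∀ J : ℕ,
    (2 ^ 2 ^ J) ^ K ≤ p → ∀ α β a g1 g2 : ℕ, 1 ≤ a → 1 ≤ g1 → 1 ≤ g2 →
    ∀ F : Finset ℕ, (∀ N ∈ F, Rep p cr J α β a g1 g2 N) →
    (F.card : ℝ) ≤ ell a * (C * (2 ^ (α + β) / (a * g1 * g2 * p * 4 ^ J)) +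
      C * (p : ℝ) ^ (9 / 10 : ℝ)) := by
  obtain ⟨K, c, C, hc, hC, H⟩ := pair_sieve
  refine ⟨K, 8 * C, by positivity, ?_⟩
  intro p hp cr hcr J hJ α β a g1 g2 ha hg1 hg2 F hF
  rcases F.eq_empty_or_nonempty with hF0 | ⟨N0, hN0⟩
  · subst hF0
    simp only [card_empty, Nat.cast_zero]
    positivity
  obtain ⟨r, hrp, hr⟩ := rep_coprime hcr (hF N0 hN0)
  have hpos : (0 : ℝ) < p := by exact_mod_cast hp.pos
  have ha' : (0 : ℝ) < a := by exact_mod_cast ha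
  have hg1' : (0 : ℝ) < g1 := by exact_mod_cast hg1
  have hg2' : (0 : ℝ) < g2 := by exact_mod_cast hg2
  have hsub : F ⊆ ((a.divisors.image (Nat.log 2)).filter (fun κ => κ ≤ α)).biUnion
      (fun κ => (box p J α β a g1 g2 r κ).image (fun st => a * g1 * g2 * (st.1 * st.2))) := by
    intro N hN
    obtain ⟨κ, hκ, st, hst, hNe⟩ := rep_mem hcr hr (hF N hN)
    rw [mem_biUnion]
    exact ⟨κ, hκ, mem_image.2 ⟨st, hst, hNe.symm⟩⟩
  have h1 : (F.card : ℝ) ≤ ∑ κ ∈ (a.divisors.image (Nat.log 2)).filter (fun κ => κ ≤ α),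
      ((box p J α β a g1 g2 r κ).card : ℝ) := by
    have h2 := (card_le_card hsub).trans card_biUnion_le
    have h3 : ∑ κ ∈ (a.divisors.image (Nat.log 2)).filter (fun κ => κ ≤ α),
        ((box p J α β a g1 g2 r κ).image (fun st => a * g1 * g2 * (st.1 * st.2))).card ≤
        ∑ κ ∈ (a.divisors.image (Nat.log 2)).filter (fun κ => κ ≤ α),
        (box p J α β a g1 g2 r κ).card := sum_le_sum (fun κ _ => card_image_le)
    exact_mod_cast h2.trans h3
  refine h1.trans ?_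
  have h4 : ∀ κ ∈ (a.divisors.image (Nat.log 2)).filter (fun κ => κ ≤ α),
      ((box p J α β a g1 g2 r κ).card : ℝ) ≤
        8 * C * (2 ^ (α + β) / (a * g1 * g2 * p * 4 ^ J)) + 8 * C * (p : ℝ) ^ (9 / 10 : ℝ) := by
    intro κ hκ
    rw [mem_filter] at hκ
    have h5 := (H p hp J hJ r 0 (min (p - 1) (2 ^ (α + 1 - κ) / g1)) 0
      (min (p - 1) (2 ^ (β + κ + 2) / (a * g2))) hrp (by
        have := min_le_left (p - 1) (2 ^ (α + 1 - κ) / g1); omega) (by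
        have := min_le_left (p - 1) (2 ^ (β + κ + 2) / (a * g2)); omega)).2
    have h6 : ((box p J α β a g1 g2 r κ).card : ℝ) ≤ _ := h5
    refine h6.trans ?_
    have hp9 : (0 : ℝ) ≤ (p : ℝ) ^ (9 / 10 : ℝ) := by positivity
    have h7 : C * (p : ℝ) ^ (9 / 10 : ℝ) ≤ 8 * C * (p : ℝ) ^ (9 / 10 : ℝ) := by nlinarith
    have h8 : ((min (p - 1) (2 ^ (α + 1 - κ) / g1) : ℕ) : ℝ) ≤ 2 ^ (α + 1 - κ) / g1 := by
      refine le_trans (Nat.cast_le.2 (min_le_right _ _)) ?_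
      refine le_trans Nat.cast_div_le ?_
      push_cast; exact le_refl _
    have h9 : ((min (p - 1) (2 ^ (β + κ + 2) / (a * g2)) : ℕ) : ℝ) ≤
        2 ^ (β + κ + 2) / (a * g2) := by
      refine le_trans (Nat.cast_le.2 (min_le_right _ _)) ?_
      refine le_trans Nat.cast_div_le ?_
      push_cast; exact le_refl _
    have h10 : ((min (p - 1) (2 ^ (α + 1 - κ) / g1) : ℕ) : ℝ) *
        ((min (p - 1) (2 ^ (β + κ + 2) / (a * g2)) : ℕ) : ℝ) ≤
        8 * (2 ^ (α + β) / (a * g1 * g2)) := by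
      refine (mul_le_mul h8 h9 (Nat.cast_nonneg _) (by positivity)).trans (le_of_eq ?_)
      have : (2 : ℝ) ^ (α + 1 - κ) * 2 ^ (β + κ + 2) = 8 * 2 ^ (α + β) := by
        rw [← pow_add, show α + 1 - κ + (β + κ + 2) = 3 + (α + β) by omega, pow_add]; norm_num
      field_simp
      rw [mul_comm] at this ⊢
      linarith [this]
    have h11 : ((min (p - 1) (2 ^ (α + 1 - κ) / g1) : ℕ) : ℝ) *
        ((min (p - 1) (2 ^ (β + κ + 2) / (a * g2)) : ℕ) : ℝ) / (p * 4 ^ J) ≤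
        8 * (2 ^ (α + β) / (a * g1 * g2 * p * 4 ^ J)) := by
      refine (div_le_div_of_nonneg_right h10 (by positivity)).trans (le_of_eq ?_)
      field_simp
    have h12 := mul_le_mul_of_nonneg_left h11 hC.le
    linarith
  refine (sum_le_card_nsmul _ _ _ h4).trans ?_
  rw [nsmul_eq_mul]
  refine mul_le_mul_of_nonneg_right ?_ (by positivity)
  rw [ell]
  exact_mod_cast card_le_card (filter_subset _ _)

end Pool.Agent.Y594.LPC
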