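import Pool.Agent.Helper112.Lp.UA2
import Pool.Agent.Y594.LP.UA1c

open Finset
open Pool.Agent.Helper112.LP

namespace Pool.Agent.Y594.LPC

/-- the basic data of a pair -/
structure PairD (p cr α β u v N : ℕ) : Prop where
  hu : 1 ≤ u
  hv : 1 ≤ v
  hup : u ≤ p - 1
  hvp : v ≤ p - 1
  hN : N = u * v
  hmod : u * v ≡ cr [MOD p]
  hα : Nat.log 2 u = α
  hβ : Nat.log 2 v = β

theorem rep_basic {p cr α β u v N : ℕ} (h : PairD p cr α β u v N) (J : ℕ) :
    Rep p cr J α β (sA J u v) 1 1 N := by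
  refine ⟨u, v, (lo J u).prod, (lo J v).prod, (hi J u).prod, (hi J v).prod, h.hu, h.hv, h.hup,
    h.hvp, h.hN, h.hmod, h.hα, h.hβ, ?_, ?_, rfl, ?_⟩
  · rw [mul_one]; exact (lo_mul_hi J (by have := h.hu; omega)).symm
  · rw [mul_one]; exact (lo_mul_hi J (by have := h.hv; omega)).symm
  · exact Nat.Coprime.mul_left (coprime_list (fun _ => hi_prime) (fun _ => hi_not_lt))
      (coprime_list (fun _ => hi_prime) (fun _ => hi_not_lt))

theorem rep_group {p cr α β u v N : ℕ} (h : PairD p cr α β u v N) (J n : ℕ)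
    (hn : n ≤ (mi J u).length + (mi J v).length) :
    ∃ n1 ∈ range (n + 1), ∃ g1 ∈ GS (J + 1) n1 ((2 ^ 2 ^ (J + 1)) ^ n),
      ∃ g2 ∈ GS (J + 1) (n - n1) ((2 ^ 2 ^ (J + 1)) ^ n), Rep p cr J α β (sA J u v) g1 g2 N := by
  have key : ∀ (w m : ℕ), m ≤ n → m ≤ (mi J w).length →
      ((mi J w).take m).prod ∈ GS (J + 1) m ((2 ^ 2 ^ (J + 1)) ^ n) := by
    intro w m hm hm2
    have hpr : ∀ x ∈ (mi J w).take m, x.Prime := fun x hx => mi_prime (List.mem_of_mem_take hx)
    rw [GS, mem_filter, mem_Icc]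
    refine ⟨⟨list_prod_pos hpr, ?_⟩, ?_, ?_⟩
    · refine (list_prod_le (z := 2 ^ 2 ^ (J + 1))
        (fun x hx => (mi_lt (List.mem_of_mem_take hx)).le)).trans ?_
      refine Nat.pow_le_pow_right (by positivity) ?_
      rw [List.length_take]; omega
    · rw [cardFactors_list hpr, List.length_take]; omega
    · intro l hl
      have hl' := Nat.mem_primeFactors.1 hl
      exact mi_mem (List.mem_of_mem_take (prime_of_dvd_list hpr hl'.1 hl'.2.1))
  have key2 : ∀ (w m : ℕ), w ≠ 0 →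
      w = (lo J w).prod * ((mi J w).take m).prod * (((mi J w).drop m).prod * (hi (J + 1) w).prod) := by
    intro w m hw
    have h1 := lo_mul_hi (J + 1) hw
    have h2 := lo_mul_mi J w
    have h3 := take_mul_drop (mi J w) m
    calc w = (lo (J + 1) w).prod * (hi (J + 1) w).prod := h1.symm
      _ = (lo J w).prod * (((mi J w).take m).prod * ((mi J w).drop m).prod) *
          (hi (J + 1) w).prod := by rw [h3, h2]
      _ = _ := by ring
  have key3 : ∀ (w m : ℕ),
      (((mi J w).drop m).prod * (hi (J + 1) w).prod).Coprime (PP J) := by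
    intro w m
    refine Nat.Coprime.mul_left (coprime_list (fun x hx => mi_prime (List.mem_of_mem_drop hx))
      (fun x hx => mi_not_lt (List.mem_of_mem_drop hx))) (coprime_list (fun _ => hi_prime)
      (fun x hx => ?_))
    have := hi_not_lt hx
    have h2 := pow_mono J
    omega
  set n1 := min n (mi J u).length with hn1
  refine ⟨n1, by rw [mem_range]; omega, _, key u n1 (by omega) (by omega),
    _, key v (n - n1) (by omega) (by omega), ?_⟩
  exact ⟨u, v, (lo J u).prod, (lo J v).prod, _, _, h.hu, h.hv, h.hup, h.hvp, h.hN, h.hmod, h.hα,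
    h.hβ, key2 u n1 (by have := h.hu; omega), key2 v (n - n1) (by have := h.hv; omega), rfl,
    Nat.Coprime.mul_left (key3 _ _) (key3 _ _)⟩

theorem rep_big {p cr α β u v N : ℕ} (h : PairD p cr α β u v N) (J Q : ℕ) (hQ : 1 ≤ Q)
    (hA : Q < sA J u v) :
    ∃ a, Q < a ∧ a ≤ Q * 2 ^ 2 ^ J ∧ Smo J a ∧ Rep p cr 0 α β a 1 1 N := by
  have hpr : ∀ x ∈ lo J u ++ lo J v, x.Prime := by
    intro x hx
    rcases List.mem_append.1 hx with hx | hx <;> exact lo_prime hx
  have hlt : ∀ x ∈ lo J u ++ lo J v, x < 2 ^ 2 ^ J := by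
    intro x hx
    rcases List.mem_append.1 hx with hx | hx <;> exact lo_lt hx
  obtain ⟨t, ht1, ht2⟩ := prefix_exists (Q := Q) (z := 2 ^ 2 ^ J) (lo J u ++ lo J v)
    (fun x hx => (hlt x hx).le) hQ (by rw [List.prod_append]; exact hA)
  refine ⟨_, ht1, ht2, smo_list (fun x hx => hpr x (List.mem_of_mem_take hx))
    (fun x hx => hlt x (List.mem_of_mem_take hx)), ?_⟩
  rw [List.take_append, List.prod_append]
  refine ⟨u, v, ((lo J u).take t).prod, ((lo J v).take (t - (lo J u).length)).prod,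
    ((lo J u).drop t).prod * (hi J u).prod,
    ((lo J v).drop (t - (lo J u).length)).prod * (hi J v).prod, h.hu, h.hv, h.hup,
    h.hvp, h.hN, h.hmod, h.hα, h.hβ, ?_, ?_, rfl, ?_⟩
  · rw [mul_one, ← mul_assoc, take_mul_drop]; exact (lo_mul_hi J (by have := h.hu; omega)).symm
  · rw [mul_one, ← mul_assoc, take_mul_drop]; exact (lo_mul_hi J (by have := h.hv; omega)).symm
  · have : PP 0 = 1 := by
      rw [PP]
      refine prod_eq_one (fun l hl => ?_)
      rw [mem_filter, mem_range] at hl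
      have := hl.2.two_le
      have h2 := hl.1
      norm_num at h2
      omega
    rw [this]; exact Nat.coprime_one_right _

/-- the four cases -/
theorem decomp {p cr α β u v N : ℕ} (h : PairD p cr α β u v N) (w b I : ℕ) (hI : b + 1 + I ≤ w) :
    (∃ a, 1 ≤ a ∧ a ≤ 2 ^ 2 ^ (w + 1) ∧ Smo (w - b) a ∧ Rep p cr (w - b) α β a 1 1 N) ∨
    (∃ i ∈ Icc 1 I, ∃ a, 2 ^ 2 ^ w < a ∧ a ≤ 2 ^ 2 ^ (w + 1) ∧ Smo (w - b - i) a ∧
      Rep p cr (w - b - i) α β a 1 1 N) ∨
    (∃ i ∈ Icc 1 I, ∃ a, 1 ≤ a ∧ a ≤ 2 ^ 2 ^ w ∧ Smo (w - b - i) a ∧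
      ∃ n1 ∈ range (2 ^ (b + i - 1) + 1), ∃ g1 ∈ GS (w - b - i + 1) n1 (2 ^ 2 ^ w),
      ∃ g2 ∈ GS (w - b - i + 1) (2 ^ (b + i - 1) - n1) (2 ^ 2 ^ w),
        Rep p cr (w - b - i) α β a g1 g2 N) ∨
    (∃ a, 2 ^ 2 ^ (w + 1) < a ∧ a ≤ 2 ^ 2 ^ (w + 2) ∧ Smo (w - b - I) a ∧
      Rep p cr 0 α β a 1 1 N) := by
  classical
  by_cases hex : ∃ i, i ≤ I ∧ sA (w - b - i) u v ≤ 2 ^ 2 ^ (w + 1)
  · have hmin := fun (m : ℕ) (hm : m < Nat.find hex) => Nat.find_min hex hm
    obtain ⟨hi1, hi2⟩ := Nat.find_spec hex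
    set i := Nat.find hex with hi
    rcases Nat.eq_zero_or_pos i with h0 | h0
    · left
      rw [h0] at hi2
      exact ⟨_, sA_pos _ u v, hi2, sA_smo _ u v, rep_basic h _⟩
    · right
      have hprev := hmin (i - 1) (by omega)
      push Not at hprev
      have hprev2 := hprev (by omega)
      rcases lt_or_ge (2 ^ 2 ^ w) (sA (w - b - i) u v) with h1 | h1
      · left
        exact ⟨i, mem_Icc.2 ⟨h0, hi1⟩, _, h1, hi2, sA_smo _ u v, rep_basic h _⟩
      · right; left
        set J := w - b - i with hJ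
        have hJ1 : w - b - (i - 1) = J + 1 := by omega
        rw [hJ1] at hprev2
        have h2 : sA (J + 1) u v = sA J u v * ((mi J u).prod * (mi J v).prod) := by
          rw [sA, sA, ← lo_mul_mi, ← lo_mul_mi]; ring
        have h3 : 2 ^ 2 ^ w < (mi J u).prod * (mi J v).prod := by
          by_contra hcon
          push Not at hcon
          have : sA (J + 1) u v ≤ 2 ^ 2 ^ w * 2 ^ 2 ^ w := by
            rw [h2]; exact Nat.mul_le_mul h1 hcon
          have h4 : 2 ^ 2 ^ w * 2 ^ 2 ^ w = 2 ^ 2 ^ (w + 1) := by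
            rw [← pow_add]; congr 1; ring
          omega
        have h5 : (mi J u).prod * (mi J v).prod ≤
            (2 ^ 2 ^ (J + 1)) ^ ((mi J u).length + (mi J v).length) := by
          rw [pow_add]
          exact Nat.mul_le_mul (list_prod_le (fun x hx => (mi_lt hx).le))
            (list_prod_le (fun x hx => (mi_lt hx).le))
        have h6 : 2 ^ w < 2 ^ (J + 1) * ((mi J u).length + (mi J v).length) := by
          have := lt_of_lt_of_le h3 h5
          rw [← pow_mul] at this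
          exact (Nat.pow_lt_pow_iff_right (by norm_num)).1 this
        have h7 : w = J + 1 + (b + i - 1) := by omega
        have h8 : 2 ^ (b + i - 1) ≤ (mi J u).length + (mi J v).length := by
          have h9 : 2 ^ (J + 1) * 2 ^ (b + i - 1) <
              2 ^ (J + 1) * ((mi J u).length + (mi J v).length) := by
            rw [← pow_add, ← h7]; exact h6
          exact (lt_of_mul_lt_mul_left h9 (Nat.zero_le _)).le
        obtain ⟨n1, hn1, g1, hg1, g2, hg2, hR⟩ := rep_group h J _ h8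
        have h10 : (2 ^ 2 ^ (J + 1)) ^ 2 ^ (b + i - 1) = 2 ^ 2 ^ w := by
          rw [← pow_mul, ← pow_add, ← h7]
        rw [h10] at hg1 hg2
        exact ⟨i, mem_Icc.2 ⟨h0, hi1⟩, _, sA_pos _ u v, h1, sA_smo _ u v, n1, hn1, g1, hg1, g2,
          hg2, hR⟩
  · push Not at hex
    right; right; right
    obtain ⟨a, ha1, ha2, ha3, ha4⟩ := rep_big h (w - b - I) (2 ^ 2 ^ (w + 1)) Nat.one_le_two_pow
      (hex I le_rfl)
    refine ⟨a, ha1, ha2.trans ?_, ha3, ha4⟩
    rw [← pow_add]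
    refine Nat.pow_le_pow_right (by norm_num) ?_
    have h1 : 2 ^ (w - b - I) ≤ 2 ^ (w + 1) := Nat.pow_le_pow_right (by norm_num) (by omega)
    have h2 : 2 ^ (w + 2) = 2 ^ (w + 1) + 2 ^ (w + 1) := by ring
    omega

end Pool.Agent.Y594.LPC
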