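import Pool.Agent.Helper112.Lp.UA5
import Pool.Agent.Y594.LP.UA4c

open Finset
open Pool.Agent.Helper112.LP

namespace Pool.Agent.Y594.LPC

/-- products `u v`, `1 ≤ u ≤ U`, `1 ≤ v ≤ V`, with `u v ≡ cr mod p` -/
def NS (p cr U V : ℕ) : Finset ℕ :=
  ((Icc 1 U ×ˢ Icc 1 V).filter (fun uv => uv.1 * uv.2 ≡ cr [MOD p])).image
    (fun uv => uv.1 * uv.2)

/-- upper bound in every residue class, in boxes -/
theorem upper_J : ∃ (C : ℝ) (p0 : ℕ), 0 < C ∧ ∀ p : ℕ, p0 ≤ p → p.Prime → ∀ cr : ℕ,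
    cr.Coprime p → ∀ U V : ℕ, U ≤ p - 1 → V ≤ p - 1 →
    (p : ℝ) ^ (2 - 3 / 50 : ℝ) ≤ U * V → ∀ J : ℕ,
    J = Nat.log 2 (Nat.log 2 p) →
    ((NS p cr U V).card : ℝ) ≤
      C * ((U * V / p) * ((Real.exp 1 * Real.log 2 / 2) ^ J / (J * Real.sqrt J))) := by
  obtain ⟨K, C, hC, H⟩ := box_bound
  obtain ⟨Cb, J1, hCb, hJ13, Hb⟩ := bracket (K + 4)
  refine ⟨4 * C * Cb + 4 * C * 2001 ^ 6, 2 ^ 2 ^ J1, by positivity, ?_⟩
  intro p hp0 hp cr hcr U V hU hV hUV J0 hJ0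
  change ((NS p cr U V).card : ℝ) ≤ _ * ((U * V / p) * GF J0)
  have hpne : p ≠ 0 := hp.ne_zero
  have hpos : (0 : ℝ) < p := by exact_mod_cast hp.pos
  have hUV0 : (0 : ℝ) < (U : ℝ) * V := lt_of_lt_of_le (Real.rpow_pos_of_pos hpos _) hUV
  have hUne : U ≠ 0 := by rintro rfl; simp at hUV0
  have hVne : V ≠ 0 := by rintro rfl; simp at hUV0
  set L := Nat.log 2 p with hL
  have hL1 : 2 ^ J1 ≤ L := by
    rw [hL]; exact (Nat.le_log_iff_pow_le (by norm_num) hpne).2 hp0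
  have hLne : L ≠ 0 := by have : 0 < 2 ^ J1 := by positivity
                          omega
  have hJ1 : J1 ≤ J0 := by
    rw [hJ0]; exact (Nat.le_log_iff_pow_le (by norm_num) hLne).2 hL1
  have hLp : 2 ^ L ≤ p := Nat.pow_log_le_self 2 hpne
  have hJL : 2 ^ J0 ≤ L := by rw [hJ0]; exact Nat.pow_log_le_self 2 hLne
  have hJp : 2 ^ 2 ^ J0 ≤ p := (Nat.pow_le_pow_right (by norm_num) hJL).trans hLp
  obtain ⟨hb1, hb2, hb3⟩ := Hb J0 hJ1
  set I := 2 * (Nat.log 2 J0 + 1) with hI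
  have hlev : (2 ^ 2 ^ (J0 - 8 - (K + 4))) ^ K ≤ p := by
    refine le_trans ?_ hJp
    rw [← pow_mul]
    refine Nat.pow_le_pow_right (by norm_num) ?_
    have h1 : K ≤ 2 ^ (K + 4 + 8) := by
      have : K < 2 ^ K := Nat.lt_two_pow_self
      have h2 : 2 ^ K ≤ 2 ^ (K + 4 + 8) := Nat.pow_le_pow_right (by norm_num) (by omega)
      omega
    calc 2 ^ (J0 - 8 - (K + 4)) * K ≤ 2 ^ (J0 - 8 - (K + 4)) * 2 ^ (K + 4 + 8) :=
          Nat.mul_le_mul_left _ h1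
      _ = 2 ^ J0 := by rw [← pow_add]; congr 1; omega
  set LU := Nat.log 2 U with hLU
  set LV := Nat.log 2 V with hLV
  have hLUL : LU ≤ L := Nat.log_mono_right (by omega)
  have hLVL : LV ≤ L := Nat.log_mono_right (by omega)
  have hLUU : 2 ^ LU ≤ U := Nat.pow_log_le_self 2 hUne
  have hLVV : 2 ^ LV ≤ V := Nat.pow_log_le_self 2 hVne
  -- the union over dyadic boxes
  have hmain := union_bound (range (LU + 1) ×ˢ range (LV + 1))
    (fun ab N => ∃ u v, PairD p cr ab.1 ab.2 u v N)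
    (fun ab => C * (2 ^ (ab.1 + ab.2) / p) * (Cb * GF J0) +
      C * (2 * I + 2) * 2 ^ 2 ^ (J0 - 8 + 3) * (p : ℝ) ^ (9 / 10 : ℝ))
    (by
      intro ab _ F' hF'
      refine (H p hp cr hcr (J0 - 8) (K + 4) I hb1 (by omega) hlev ab.1 ab.2 F' hF').trans ?_
      refine add_le_add ?_ (le_of_eq (by push_cast; ring))
      exact mul_le_mul_of_nonneg_left hb3 (by positivity))
    (NS p cr U V) (by
      intro N hN
      rw [NS, mem_image] at hN
      obtain ⟨uv, huv, rfl⟩ := hN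
      rw [mem_filter, mem_product, mem_Icc, mem_Icc] at huv
      obtain ⟨⟨⟨hu1, hu2⟩, ⟨hv1, hv2⟩⟩, hm⟩ := huv
      refine ⟨(Nat.log 2 uv.1, Nat.log 2 uv.2), ?_, uv.1, uv.2, hu1, hv1, hu2.trans hU,
        hv2.trans hV, rfl, hm, rfl, rfl⟩
      rw [mem_product, mem_range, mem_range]
      have h1 : Nat.log 2 uv.1 ≤ LU := Nat.log_mono_right hu2
      have h2 : Nat.log 2 uv.2 ≤ LV := Nat.log_mono_right hv2
      exact ⟨Nat.lt_succ_of_le h1, Nat.lt_succ_of_le h2⟩)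
  refine hmain.trans ?_
  rw [sum_add_distrib, sum_const, card_product, card_range, card_range, nsmul_eq_mul]
  have hsum : ∑ ab ∈ range (LU + 1) ×ˢ range (LV + 1),
      C * (2 ^ (ab.1 + ab.2) / (p : ℝ)) * (Cb * GF J0)
      ≤ 4 * C * Cb * ((U * V / p) * GF J0) := by
    have h1 : ∑ ab ∈ range (LU + 1) ×ˢ range (LV + 1),
        C * (2 ^ (ab.1 + ab.2) / (p : ℝ)) * (Cb * GF J0)
        = C * Cb * GF J0 / p *
          ((∑ a ∈ range (LU + 1), (2 : ℝ) ^ a) * ∑ b ∈ range (LV + 1), (2 : ℝ) ^ b) := by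
      rw [sum_mul_sum, sum_product, mul_sum]
      refine sum_congr rfl (fun a _ => ?_)
      rw [mul_sum]
      refine sum_congr rfl (fun b _ => ?_)
      rw [pow_add]; field_simp
    have h2 : ∀ n X : ℕ, 2 ^ n ≤ X → ∑ a ∈ range (n + 1), (2 : ℝ) ^ a ≤ 2 * X := by
      intro n X hX
      rw [geom_sum_eq (by norm_num)]
      have h3 : (2 : ℝ) ^ n ≤ X := by exact_mod_cast hX
      rw [pow_succ]
      norm_num
      linarith
    have h3 : (0 : ℝ) ≤ ∑ b ∈ range (LV + 1), (2 : ℝ) ^ b := sum_nonneg (fun _ _ => by positivity)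
    have hG := GF_nonneg J0
    rw [h1]
    calc _ ≤ C * Cb * GF J0 / p * ((2 * U) * (2 * V)) := by
          refine mul_le_mul_of_nonneg_left (mul_le_mul (h2 _ _ hLUU) (h2 _ _ hLVV) h3
            (by positivity)) (by positivity)
      _ = _ := by field_simp; ring
  -- error
  have herr : (((LU + 1) * (LV + 1) : ℕ) : ℝ) *
      (C * (2 * I + 2) * 2 ^ 2 ^ (J0 - 8 + 3) * (p : ℝ) ^ (9 / 10 : ℝ)) ≤
      4 * C * 2001 ^ 6 * ((U * V / p) * GF J0) := by
    have h1 : (2 : ℝ) ^ 2 ^ (J0 - 8 + 3) ≤ (p : ℝ) ^ (1 / 32 : ℝ) := by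
      have h2 : ((2 : ℝ) ^ 2 ^ (J0 - 8 + 3)) ^ (32 : ℕ) ≤ p := by
        rw [← pow_mul]
        have : 2 ^ (J0 - 8 + 3) * 32 = 2 ^ J0 := by
          rw [show (32 : ℕ) = 2 ^ 5 by norm_num, ← pow_add]; congr 1; omega
        rw [this]
        exact_mod_cast hJp
      have h3 : (2 : ℝ) ^ 2 ^ (J0 - 8 + 3) =
          (((2 : ℝ) ^ 2 ^ (J0 - 8 + 3)) ^ (32 : ℕ)) ^ (1 / 32 : ℝ) := by
        rw [← Real.rpow_natCast (_ : ℝ) 32, ← Real.rpow_mul (by positivity)]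
        norm_num
      rw [h3]
      exact Real.rpow_le_rpow (by positivity) h2 (by norm_num)
    have hL201 : ((L : ℝ) + 1) ≤ 2001 * (p : ℝ) ^ (1 / 1000 : ℝ) := by
      have hp1 : (1 : ℝ) ≤ p := by exact_mod_cast hp.one_lt.le
      have h2 : (1 : ℝ) ≤ (p : ℝ) ^ (1 / 1000 : ℝ) := Real.one_le_rpow hp1 (by norm_num)
      have h3 : (L : ℝ) * Real.log 2 ≤ Real.log p := by
        have h4 : ((2 : ℝ) ^ L) ≤ p := by exact_mod_cast hLp
        have h5 := Real.log_le_log (by positivity) h4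
        rwa [Real.log_pow] at h5
      have h4 : Real.log p ≤ (p : ℝ) ^ (1 / 1000 : ℝ) / (1 / 1000) :=
        Real.log_le_rpow_div hpos.le (by norm_num)
      have h5 := Real.log_two_gt_d9
      have h6 : (0 : ℝ) ≤ L := Nat.cast_nonneg _
      have h7 : (L : ℝ) / 2 ≤ L * Real.log 2 := by nlinarith
      linarith
    have hI2 : (2 * (I : ℝ) + 2) ≤ 4 * (L + 1) := by
      have h2 : Nat.log 2 J0 < J0 := Nat.log_lt_self 2 (by omega)
      have h3 : J0 < 2 ^ J0 := Nat.lt_two_pow_self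
      have h4 : 2 * I + 2 ≤ 4 * (L + 1) := by omega
      exact_mod_cast h4
    have h8 : (8 : ℝ) ^ J0 ≤ (L + 1) ^ 3 := by
      have h2 : ((2 : ℝ) ^ J0) ≤ L := by exact_mod_cast hJL
      calc (8 : ℝ) ^ J0 = (2 ^ J0) ^ 3 := by rw [← pow_mul, mul_comm, pow_mul]; norm_num
        _ ≤ (L + 1) ^ 3 := pow_le_pow_left₀ (by positivity) (by linarith) 3
    have hGl := GF_lower (J0 := J0) (by omega)
    have hG := GF_nonneg J0
    have hone : 1 ≤ (8 : ℝ) ^ J0 * GF J0 := by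
      calc (1 : ℝ) = 8 ^ J0 * (1 / 8) ^ J0 := by rw [← mul_pow]; norm_num
        _ ≤ _ := mul_le_mul_of_nonneg_left hGl (by positivity)
    have hL0 : (0 : ℝ) ≤ L := Nat.cast_nonneg _
    have hp9 : (0 : ℝ) ≤ (p : ℝ) ^ (9 / 10 : ℝ) := by positivity
    have hUVp : (p : ℝ) ^ (94 / 100 : ℝ) ≤ U * V / p := by
      rw [le_div_iff₀ hpos]
      calc (p : ℝ) ^ (94 / 100 : ℝ) * p = (p : ℝ) ^ (2 - 3 / 50 : ℝ) := by
            nth_rewrite 2 [← Real.rpow_one (p : ℝ)]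
            rw [← Real.rpow_add hpos]; norm_num
        _ ≤ _ := hUV
    calc (((LU + 1) * (LV + 1) : ℕ) : ℝ) *
        (C * (2 * I + 2) * 2 ^ 2 ^ (J0 - 8 + 3) * (p : ℝ) ^ (9 / 10 : ℝ))
        ≤ (L + 1) ^ 2 * (C * (4 * (L + 1)) * (p : ℝ) ^ (1 / 32 : ℝ) * (p : ℝ) ^ (9 / 10 : ℝ)) := by
          have hq : (((LU + 1) * (LV + 1) : ℕ) : ℝ) ≤ (L + 1) ^ 2 := by
            have hq1 : (LU + 1) * (LV + 1) ≤ (L + 1) * (L + 1) :=
              Nat.mul_le_mul (by omega) (by omega)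
            have hq2 : (((LU + 1) * (LV + 1) : ℕ) : ℝ) ≤ (((L + 1) * (L + 1) : ℕ) : ℝ) := by
              exact_mod_cast hq1
            refine hq2.trans (le_of_eq ?_)
            push_cast; ring
          refine mul_le_mul hq ?_ (by positivity) (by positivity)
          refine mul_le_mul_of_nonneg_right ?_ hp9
          refine mul_le_mul ?_ h1 (by positivity) (by positivity)
          exact mul_le_mul_of_nonneg_left hI2 hC.le
      _ = 4 * C * ((L + 1) ^ 3 * ((p : ℝ) ^ (1 / 32 : ℝ) * (p : ℝ) ^ (9 / 10 : ℝ))) * 1 := by ring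
      _ ≤ 4 * C * ((L + 1) ^ 3 * ((p : ℝ) ^ (1 / 32 : ℝ) * (p : ℝ) ^ (9 / 10 : ℝ))) *
          ((L + 1) ^ 3 * GF J0) := by
          refine mul_le_mul_of_nonneg_left ?_ (by positivity)
          exact hone.trans (mul_le_mul_of_nonneg_right h8 hG)
      _ = 4 * C * (((L + 1) ^ 6) * ((p : ℝ) ^ (1 / 32 : ℝ) * (p : ℝ) ^ (9 / 10 : ℝ))) * GF J0 := by
          ring
      _ ≤ 4 * C * ((2001 * (p : ℝ) ^ (1 / 1000 : ℝ)) ^ 6 *
          ((p : ℝ) ^ (1 / 32 : ℝ) * (p : ℝ) ^ (9 / 10 : ℝ))) * GF J0 := by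
          refine mul_le_mul_of_nonneg_right ?_ hG
          refine mul_le_mul_of_nonneg_left ?_ (by positivity)
          refine mul_le_mul_of_nonneg_right ?_ (by positivity)
          exact pow_le_pow_left₀ (by positivity) hL201 6
      _ ≤ 4 * C * (2001 ^ 6 * (U * V / p)) * GF J0 := by
          refine mul_le_mul_of_nonneg_right ?_ hG
          refine mul_le_mul_of_nonneg_left ?_ (by positivity)
          rw [mul_pow, mul_assoc]
          refine mul_le_mul_of_nonneg_left ?_ (by positivity)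
          have hp1 : (1 : ℝ) ≤ p := by exact_mod_cast hp.one_lt.le
          rw [← Real.rpow_natCast ((p : ℝ) ^ (1 / 1000 : ℝ)) 6, ← Real.rpow_mul hpos.le,
            ← Real.rpow_add hpos, ← Real.rpow_add hpos]
          refine le_trans ?_ hUVp
          exact Real.rpow_le_rpow_of_exponent_le hp1 (by norm_num)
      _ = _ := by ring
  calc _ ≤ 4 * C * Cb * ((U * V / p) * GF J0) + 4 * C * 2001 ^ 6 * ((U * V / p) * GF J0) :=
        add_le_add hsum herr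
    _ = _ := by ring

end Pool.Agent.Y594.LPC
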