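import Pool.Agent.Helper112.Lp.Kla
import Pool.Agent.Y594.LP.UA5c

open Finset
open Pool.Agent.Helper112.LP
open Pool.Agent.Helper112.LP.Kla (aux_prime_ge aux_card_div aux_pow_le aux_a_dvd aux_v_le)

namespace Pool.Agent.Y594.LPC

/-! ### helper lemmas for the assembly -/

theorem aux_large (C c : ℝ) (hc : 0 < c) (M : ℕ) : ∃ p0 : ℕ, ∀ p : ℕ, p0 ≤ p →
    C * (p : ℝ) ^ (9 / 10 : ℝ) * (p : ℝ) ^ (1 / 100 : ℝ) * (4 ^ M * (Nat.log 2 p : ℝ) ^ 2) ≤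
      c * (p : ℝ) ^ (94 / 100 : ℝ) := by
  have h1 : Filter.Tendsto (fun p : ℕ => (p : ℝ) ^ (1 / 100 : ℝ)) Filter.atTop Filter.atTop :=
    (tendsto_rpow_atTop (by norm_num)).comp tendsto_natCast_atTop_atTop
  obtain ⟨p0, hp0⟩ := Filter.eventually_atTop.1
    (h1.eventually (Filter.eventually_ge_atTop (|C| * 4 ^ M * 40000 / c)))
  refine ⟨max p0 2, fun p hp => ?_⟩
  have hp1 := hp0 p (le_trans (le_max_left _ _) hp)
  have hp2 : 2 ≤ p := le_trans (le_max_right _ _) hp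
  have hp2' : (2 : ℝ) ≤ p := by exact_mod_cast hp2
  have hpos : (0 : ℝ) < p := by linarith
  have hlog : (Nat.log 2 p : ℝ) ≤ 200 * (p : ℝ) ^ (1 / 100 : ℝ) := by
    have e1 : (Nat.log 2 p : ℝ) ≤ Real.logb 2 p := by
      exact_mod_cast Real.natLog_le_logb p 2
    have e2 : Real.log p ≤ (p : ℝ) ^ (1 / 100 : ℝ) / (1 / 100) :=
      Real.log_le_rpow_div hpos.le (by norm_num)
    have e3 : Real.logb 2 p ≤ 2 * Real.log p := by
      unfold Real.logb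
      rw [div_le_iff₀ (Real.log_pos (by norm_num))]
      have := Real.log_two_gt_d9
      have h0 : 0 ≤ Real.log p := Real.log_nonneg (by linarith)
      nlinarith
    linarith
  have hsq : (Nat.log 2 p : ℝ) ^ 2 ≤ 40000 * ((p : ℝ) ^ (1 / 100 : ℝ) * (p : ℝ) ^ (1 / 100 : ℝ)) := by
    calc (Nat.log 2 p : ℝ) ^ 2 ≤ (200 * (p : ℝ) ^ (1 / 100 : ℝ)) ^ 2 := by gcongr
      _ = _ := by ring
  have hprod : (p : ℝ) ^ (9 / 10 : ℝ) * (p : ℝ) ^ (1 / 100 : ℝ) *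
      ((p : ℝ) ^ (1 / 100 : ℝ) * (p : ℝ) ^ (1 / 100 : ℝ)) * (p : ℝ) ^ (1 / 100 : ℝ) =
      (p : ℝ) ^ (94 / 100 : ℝ) := by
    rw [← Real.rpow_add hpos, ← Real.rpow_add hpos, ← Real.rpow_add hpos, ← Real.rpow_add hpos]
    norm_num
  have hA : 0 < (p : ℝ) ^ (9 / 10 : ℝ) := Real.rpow_pos_of_pos hpos _
  have hB : 0 < (p : ℝ) ^ (1 / 100 : ℝ) := Real.rpow_pos_of_pos hpos _
  rw [div_le_iff₀ hc] at hp1
  calc C * (p : ℝ) ^ (9 / 10 : ℝ) * (p : ℝ) ^ (1 / 100 : ℝ) * (4 ^ M * (Nat.log 2 p : ℝ) ^ 2)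
      ≤ |C| * (p : ℝ) ^ (9 / 10 : ℝ) * (p : ℝ) ^ (1 / 100 : ℝ) *
        (4 ^ M * (40000 * ((p : ℝ) ^ (1 / 100 : ℝ) * (p : ℝ) ^ (1 / 100 : ℝ)))) := by
        gcongr
        exact le_abs_self C
    _ = (|C| * 4 ^ M * 40000) * ((p : ℝ) ^ (9 / 10 : ℝ) * (p : ℝ) ^ (1 / 100 : ℝ) *
      ((p : ℝ) ^ (1 / 100 : ℝ) * (p : ℝ) ^ (1 / 100 : ℝ))) := by ring
    _ ≤ ((p : ℝ) ^ (1 / 100 : ℝ) * c) * ((p : ℝ) ^ (9 / 10 : ℝ) * (p : ℝ) ^ (1 / 100 : ℝ) *
      ((p : ℝ) ^ (1 / 100 : ℝ) * (p : ℝ) ^ (1 / 100 : ℝ))) := by gcongr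
    _ = c * ((p : ℝ) ^ (9 / 10 : ℝ) * (p : ℝ) ^ (1 / 100 : ℝ) *
      ((p : ℝ) ^ (1 / 100 : ℝ) * (p : ℝ) ^ (1 / 100 : ℝ)) * (p : ℝ) ^ (1 / 100 : ℝ)) := by ring
    _ = c * (p : ℝ) ^ (94 / 100 : ℝ) := by rw [hprod]

/-- the pairs for `a`, `v` -/
def Pr (p cr U V Jz a v : ℕ) : Finset (ℕ × ℕ) :=
  (Ioc (U / 2 ^ (v + 2)) (U / 2 ^ (v + 1)) ×ˢ Ioc 0 (V * 2 ^ v / a)).filter
    (fun st => a * (st.1 * st.2) ≡ cr [MOD p] ∧ (st.1 * st.2).Coprime (PP Jz))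

theorem aux_mem_NS (p cr U V Jz a v : ℕ) (ha : 1 ≤ a) (hv : v ∈ a.divisors.image (Nat.log 2))
    (st : ℕ × ℕ) (hst : st ∈ Pr p cr U V Jz a v) : a * (st.1 * st.2) ∈ NS p cr U V := by
  obtain ⟨q, r⟩ := st
  unfold Pr at hst
  rw [Finset.mem_filter, Finset.mem_product, Finset.mem_Ioc, Finset.mem_Ioc] at hst
  obtain ⟨⟨⟨hq0, hq1⟩, hr0, hr1⟩, hmod, -⟩ := hst
  simp only at hq0 hq1 hr0 hr1 hmod ⊢
  obtain ⟨d, hd, hdv⟩ := Finset.mem_image.1 hv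
  have hda : d ∣ a := Nat.dvd_of_mem_divisors hd
  have hd0 : 0 < d := Nat.pos_of_mem_divisors hd
  obtain ⟨b, rfl⟩ := hda
  have hb0 : 0 < b := Nat.pos_of_ne_zero (by rintro rfl; simp at ha)
  have hd1 : 2 ^ v ≤ d := by rw [← hdv]; exact Nat.pow_log_le_self 2 hd0.ne'
  have hd2 : d < 2 ^ (v + 1) := by
    rw [← hdv]; exact Nat.lt_pow_succ_log_self (by norm_num) d
  have hqpos : 0 < q := lt_of_le_of_lt (Nat.zero_le _) hq0
  have e1 : d * q ≤ U := by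
    calc d * q ≤ 2 ^ (v + 1) * (U / 2 ^ (v + 1)) := Nat.mul_le_mul hd2.le hq1
      _ ≤ U := Nat.mul_div_le _ _
  have e2 : b * r ≤ V := by
    have h1 : (d * b) * r ≤ V * 2 ^ v :=
      le_trans (Nat.mul_le_mul_left _ hr1) (Nat.mul_div_le _ _)
    have h2 : 2 ^ v * (b * r) ≤ 2 ^ v * V := by
      calc 2 ^ v * (b * r) ≤ d * (b * r) := Nat.mul_le_mul_right _ hd1
        _ = d * b * r := by ring
        _ ≤ V * 2 ^ v := h1
        _ = 2 ^ v * V := Nat.mul_comm _ _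
    exact Nat.le_of_mul_le_mul_left h2 (by positivity)
  unfold NS
  refine Finset.mem_image.2 ⟨(d * q, b * r), Finset.mem_filter.2 ⟨Finset.mem_product.2
    ⟨Finset.mem_Icc.2 ⟨Nat.mul_pos hd0 hqpos, e1⟩,
      Finset.mem_Icc.2 ⟨Nat.mul_pos hb0 hr0, e2⟩⟩, ?_⟩, ?_⟩
  · have : d * q * (b * r) = d * b * (q * r) := by ring
    simp only [this]
    exact hmod
  · show d * q * (b * r) = d * b * (q * r)
    ring


theorem aux_count (K : ℕ) (c2 C2 : ℝ) (hc : 0 < c2)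
    (hps : ∀ p : ℕ, p.Prime → ∀ J : ℕ, (2 ^ 2 ^ J) ^ K ≤ p → ∀ r A U B V : ℕ,
      r.Coprime p → A + U ≤ p → B + V ≤ p →
      c2 * (U * V / (p * 4 ^ J)) - C2 * (p : ℝ) ^ (9 / 10 : ℝ) ≤
      (((Ioc A (A + U) ×ˢ Ioc B (B + V)).filter (fun st => st.1 * st.2 ≡ r [MOD p] ∧
        (st.1 * st.2).Coprime (PP J))).card : ℝ))
    (p cr U V Jz a v : ℕ) (hp : p.Prime) (hcr : cr.Coprime p) (hU : U ≤ p - 1) (hV : V ≤ p - 1)
    (ha : 1 ≤ a) (haU : 8 * a ≤ U) (haV : 2 * a ≤ V)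
    (hv : 2 ^ v ≤ a) (hJz : (2 ^ 2 ^ Jz) ^ K ≤ p) (hcop : a.Coprime p)
    (hlarge : C2 * (p : ℝ) ^ (9 / 10 : ℝ) ≤ c2 / 32 * (U * V / (p * (a * 4 ^ Jz)))) :
    c2 / 32 * (U * V / (p * (a * 4 ^ Jz))) ≤ ((Pr p cr U V Jz a v).card : ℝ) := by
  obtain ⟨r1, -, hr1⟩ := Nat.exists_mul_mod_eq_one_of_coprime hcop hp.one_lt
  have hmod1 : a * r1 ≡ 1 [MOD p] := by
    unfold Nat.ModEq
    rw [hr1, Nat.mod_eq_of_lt hp.one_lt]
  obtain ⟨r0, hr0⟩ : ∃ r0, r0 = r1 * cr := ⟨_, rfl⟩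
  have hmod : a * r0 ≡ cr [MOD p] := by
    have h1 := hmod1.mul_right cr
    rw [one_mul] at h1
    rw [hr0, ← mul_assoc]
    exact h1
  have hr0c : r0.Coprime p := by
    have h1 : (a * r0).Coprime p := by
      rw [Nat.Coprime, hmod.gcd_eq]; exact hcr
    exact Nat.Coprime.coprime_mul_left h1
  have hp1 := hp.one_lt
  set t := 2 ^ v with ht
  have ht1 : 1 ≤ t := Nat.one_le_two_pow
  set u1 := U / 2 ^ (v + 1) with hu1
  set u0 := U / 2 ^ (v + 2) with hu0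
  set x := V * t / a with hx
  have e1 : U < 2 * t * (u1 + 1) := by
    have := Nat.lt_mul_div_succ U (show 0 < 2 ^ (v + 1) by positivity)
    rw [← hu1, pow_succ, ← ht] at this
    nlinarith
  have e2 : 4 * t * u0 ≤ U := by
    have := Nat.mul_div_le U (2 ^ (v + 2))
    rw [← hu0, pow_add, ← ht] at this
    nlinarith
  have e3 : V * t < a * (x + 1) := by
    have := Nat.lt_mul_div_succ (V * t) (show 0 < a by omega)
    rw [← hx] at this
    exact this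
  have hu01 : u0 ≤ u1 := by
    rw [hu0, hu1]
    exact Nat.div_le_div_left (Nat.pow_le_pow_right (by norm_num) (by omega)) (by positivity)
  have hu1p : u0 + (u1 - u0) ≤ p := by
    have : u1 ≤ U := Nat.div_le_self _ _
    omega
  have hxp : 0 + x ≤ p := by
    have : x ≤ V := by
      rw [hx]
      apply Nat.div_le_of_le_mul
      rw [Nat.mul_comm a V]
      exact Nat.mul_le_mul_left _ hv
    omega
  have hmain := hps p hp Jz hJz r0 u0 (u1 - u0) 0 x hr0c hu1p hxp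
  have hsub : (((Ioc u0 (u0 + (u1 - u0)) ×ˢ Ioc 0 (0 + x)).filter (fun st : ℕ × ℕ =>
      st.1 * st.2 ≡ r0 [MOD p] ∧ (st.1 * st.2).Coprime (PP Jz))).card : ℝ) ≤
      ((Pr p cr U V Jz a v).card : ℝ) := by
    have : ((Ioc u0 (u0 + (u1 - u0)) ×ˢ Ioc 0 (0 + x)).filter (fun st : ℕ × ℕ =>
      st.1 * st.2 ≡ r0 [MOD p] ∧ (st.1 * st.2).Coprime (PP Jz))) ⊆ Pr p cr U V Jz a v := by
      intro st hst
      rw [Finset.mem_filter, Nat.add_sub_cancel' hu01, zero_add] at hst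
      unfold Pr
      refine Finset.mem_filter.2 ⟨hst.1, ?_, hst.2.2⟩
      exact (Nat.ModEq.mul_left a hst.2.1).trans hmod
    exact_mod_cast Finset.card_le_card this
  refine le_trans ?_ hsub
  refine le_trans ?_ hmain
  -- real estimates
  have ha0 : (0 : ℝ) < a := by exact_mod_cast ha
  have hp0 : (0 : ℝ) < p := by exact_mod_cast hp.pos
  have ht0 : (0 : ℝ) < t := by exact_mod_cast ht1
  have f1 : (U : ℝ) ≤ ((u1 - u0 : ℕ) : ℝ) * (8 * t) := by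
    have : U ≤ (u1 - u0) * (8 * t) := by
      obtain ⟨w, hw⟩ := Nat.exists_eq_add_of_le hu01
      rw [hw, Nat.add_sub_cancel_left]
      rw [hw] at e1
      nlinarith
    exact_mod_cast this
  have f2 : (V : ℝ) * t ≤ 2 * a * (x : ℝ) := by
    have : V * t ≤ 2 * a * x := by
      nlinarith
    exact_mod_cast this
  have f3 : (U : ℝ) * V ≤ 16 * a * (((u1 - u0 : ℕ) : ℝ) * x) := by
    have h1 : (U : ℝ) * (V * t) ≤ (((u1 - u0 : ℕ) : ℝ) * (8 * t)) * (2 * a * (x : ℝ)) :=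
      mul_le_mul f1 f2 (by positivity) (by positivity)
    have h2 : (U : ℝ) * V * t ≤ (16 * a * (((u1 - u0 : ℕ) : ℝ) * x)) * t := by
      calc (U : ℝ) * V * t = U * (V * t) := by ring
        _ ≤ _ := h1
        _ = _ := by ring
    exact le_of_mul_le_mul_right h2 ht0
  have h4 : (0 : ℝ) < 4 ^ Jz := by positivity
  have f4 : (U : ℝ) * V / (p * (a * 4 ^ Jz)) ≤
      16 * (((u1 - u0 : ℕ) : ℝ) * x / (p * 4 ^ Jz)) := by
    rw [div_le_iff₀ (by positivity), ← mul_div_assoc, div_mul_eq_mul_div, le_div_iff₀ (by positivity)]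
    calc (U : ℝ) * V * (p * 4 ^ Jz) ≤ (16 * a * (((u1 - u0 : ℕ) : ℝ) * x)) * (p * 4 ^ Jz) := by
          gcongr
      _ = _ := by ring
  have f5 := mul_le_mul_of_nonneg_left f4 hc.le
  linarith


/-- all quadruples -/
def Sg (p cr U V Jz : ℕ) (A : Finset ℕ) : Finset (Σ _ : ℕ, Σ _ : ℕ, ℕ × ℕ) :=
  A.sigma fun a => (a.divisors.image (Nat.log 2)).sigma fun v => Pr p cr U V Jz a v

theorem aux_fiber (p cr U V Jz s : ℕ) (hp : 1 ≤ p) (hU : U ≤ p - 1) (hV : V ≤ p - 1) (hps : p * p ≤ 2 ^ (2 ^ Jz * s)) (A : Finset ℕ)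
    (hA : ∀ a ∈ A, 1 ≤ a ∧ (∀ l ∈ a.primeFactors, l < 2 ^ 2 ^ Jz)) (N : ℕ) :
    ((Sg p cr U V Jz A).filter (fun x => x.1 * (x.2.2.1 * x.2.2.2) = N)).card ≤ 2 ^ s := by
  classical
  rcases ((Sg p cr U V Jz A).filter (fun x => x.1 * (x.2.2.1 * x.2.2.2) = N)).eq_empty_or_nonempty with
    h | ⟨x0, hx0⟩
  · rw [h, Finset.card_empty]; exact Nat.zero_le _
  have key : ∀ x ∈ (Sg p cr U V Jz A).filter (fun x => x.1 * (x.2.2.1 * x.2.2.2) = N),
      1 ≤ x.1 ∧ (∀ l ∈ x.1.primeFactors, l < 2 ^ 2 ^ Jz) ∧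
      U / 2 ^ (x.2.1 + 2) < x.2.2.1 ∧ x.2.2.1 ≤ U / 2 ^ (x.2.1 + 1) ∧
      0 < x.2.2.2 ∧ x.2.2.2 < p ∧ (x.2.2.1 * x.2.2.2).Coprime (PP Jz) ∧
      x.1 * (x.2.2.1 * x.2.2.2) = N := by
    rintro ⟨a, v, q, r⟩ hx
    rw [Finset.mem_filter] at hx
    obtain ⟨hx, hN⟩ := hx
    unfold Sg at hx
    rw [Finset.mem_sigma] at hx
    obtain ⟨ha, hx⟩ := hx
    rw [Finset.mem_sigma] at hx
    obtain ⟨hv, hx⟩ := hx
    unfold Pr at hx
    rw [Finset.mem_filter, Finset.mem_product, Finset.mem_Ioc, Finset.mem_Ioc] at hx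
    obtain ⟨⟨⟨hq0, hq1⟩, hr0, hr1⟩, -, hcop⟩ := hx
    simp only at hq0 hq1 hr0 hr1 hcop hN ha hv ⊢
    refine ⟨(hA a ha).1, (hA a ha).2, hq0, hq1, hr0, ?_, hcop, hN⟩
    have h1 : V * 2 ^ v / a ≤ V := by
      apply Nat.div_le_of_le_mul
      rw [Nat.mul_comm a]
      exact Nat.mul_le_mul_left _ (aux_pow_le hv)
    omega
  obtain ⟨ha0, hl0, hq0, hq0', hr0, hr0', hcop0, hN0⟩ := key x0 hx0
  set m := x0.2.2.1 * x0.2.2.2 with hm
  have hqpos : 0 < x0.2.2.1 := lt_of_le_of_lt (Nat.zero_le _) hq0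
  have hm0 : m ≠ 0 := (Nat.mul_pos hqpos hr0).ne'
  have hmlt : m < 2 ^ (2 ^ Jz * s) := by
    refine lt_of_lt_of_le ?_ hps
    have h1 : x0.2.2.1 ≤ p - 1 := (le_trans hq0' (Nat.div_le_self _ _)).trans hU
    calc m ≤ (p - 1) * (p - 1) := Nat.mul_le_mul h1 (by omega)
      _ < p * p := Nat.mul_self_lt_mul_self (by omega)
  refine le_trans ?_ (aux_card_div Jz m s hm0 hcop0 hmlt)
  have hmeq : ∀ x ∈ (Sg p cr U V Jz A).filter (fun x => x.1 * (x.2.2.1 * x.2.2.2) = N),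
      x.1 = x0.1 ∧ x.2.2.1 * x.2.2.2 = m := by
    intro x hx
    obtain ⟨ha, hl, hq, hq', hr, hr', hcop, hN⟩ := key x hx
    have h1 : x.1 ∣ x0.1 := aux_a_dvd Jz x.1 _ x0.1 m ha hl hcop0 (hN.trans hN0.symm)
    have h2 : x0.1 ∣ x.1 := aux_a_dvd Jz x0.1 m x.1 _ ha0 hl0 hcop (hN0.trans hN.symm)
    have h3 : x.1 = x0.1 := Nat.dvd_antisymm h1 h2
    refine ⟨h3, ?_⟩
    have h4 := hN.trans hN0.symm
    rw [h3] at h4
    exact Nat.eq_of_mul_eq_mul_left ha0 h4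
  refine Finset.card_le_card_of_injOn (fun x => x.2.2.1) ?_ ?_
  · intro x hx
    obtain ⟨-, h2⟩ := hmeq x hx
    exact Nat.mem_divisors.2 ⟨⟨_, h2.symm⟩, hm0⟩
  · intro x hx y hy hxy
    obtain ⟨hax, hmx⟩ := hmeq x hx
    obtain ⟨hay, hmy⟩ := hmeq y hy
    obtain ⟨-, -, hqx, hqx', -, -, -, -⟩ := key x hx
    obtain ⟨-, -, hqy, hqy', -, -, -, -⟩ := key y hy
    obtain ⟨a, v, q, r⟩ := x
    obtain ⟨a', v', q', r'⟩ := y
    simp only at hxy hax hmx hay hmy hqx hqx' hqy hqy'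
    subst hxy
    have hv : v = v' := le_antisymm (aux_v_le hqy hqx') (aux_v_le hqx hqy')
    subst hv
    have haa : a = a' := hax.trans hay.symm
    subst haa
    have hq : 0 < q := lt_of_le_of_lt (Nat.zero_le _) hqx
    have hrr : r = r' := Nat.eq_of_mul_eq_mul_left hq (hmx.trans hmy.symm)
    subst hrr
    rfl

/-- lower bound in every residue class, in boxes -/
theorem lower_J : ∃ (c : ℝ) (p0 : ℕ), 0 < c ∧ ∀ p : ℕ, p0 ≤ p → p.Prime → ∀ cr : ℕ,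
    cr.Coprime p → ∀ U V : ℕ, U ≤ p - 1 → V ≤ p - 1 →
    (p : ℝ) ^ (2 - 3 / 50 : ℝ) ≤ U * V → ∀ J : ℕ,
    J = Nat.log 2 (Nat.log 2 p) →
    c * ((U * V / p) * ((Real.exp 1 * Real.log 2 / 2) ^ J / (J * Real.sqrt J))) ≤
      ((NS p cr U V).card : ℝ) := by
  classical
  obtain ⟨K, c2, C2, hc2, hC2, hps⟩ := pair_sieve
  obtain ⟨c1, M, D, hc1, hford⟩ := ford_lower
  set e := K + M + 100 * D with he
  have heK : K * 2 ^ M ≤ 2 ^ e := by
    calc K * 2 ^ M ≤ 2 ^ K * 2 ^ M := Nat.mul_le_mul_right _ Nat.lt_two_pow_self.le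
      _ = 2 ^ (K + M) := (pow_add _ _ _).symm
      _ ≤ 2 ^ e := Nat.pow_le_pow_right (by norm_num) (by omega)
  have heD : 100 * D ≤ 2 ^ e := by
    calc 100 * D ≤ 2 ^ (100 * D) := Nat.lt_two_pow_self.le
      _ ≤ 2 ^ e := Nat.pow_le_pow_right (by norm_num) (by omega)
  have heM : M ≤ e := by omega
  set s := 2 ^ (e + 2 - M) with hs
  obtain ⟨p1, hp1⟩ := aux_large C2 (c2 / 32) (by positivity) M
  refine ⟨c1 * (c2 / 32) / (4 ^ M * 2 ^ s), max (max p1 100) (2 ^ 2 ^ (e + 1)), by positivity, ?_⟩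
  intro p hpp0 hp cr hcr U V hU hV hUV J hJ
  have hpp1 : p1 ≤ p := le_trans (le_trans (le_max_left _ _) (le_max_left _ _)) hpp0
  have hp100 : 100 ≤ p := le_trans (le_trans (le_max_right _ _) (le_max_left _ _)) hpp0
  have hpe : 2 ^ 2 ^ (e + 1) ≤ p := le_trans (le_max_right _ _) hpp0
  have hlarge := hp1 p hpp1
  have hlog1 : 2 ^ (e + 1) ≤ Nat.log 2 p := Nat.le_log_of_pow_le (by norm_num) hpe
  have hlogne : Nat.log 2 p ≠ 0 := by
    have : 0 < 2 ^ (e + 1) := by positivity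
    omega
  have hJe : e + 1 ≤ J := by
    rw [hJ]; exact Nat.le_log_of_pow_le (by norm_num) hlog1
  have hJ1 : 2 ^ J ≤ Nat.log 2 p := by rw [hJ]; exact Nat.pow_log_le_self 2 hlogne
  have hJ2 : Nat.log 2 p < 2 ^ (J + 1) := by
    rw [hJ]; exact Nat.lt_pow_succ_log_self (by norm_num) _
  have hpJ1 : 2 ^ 2 ^ J ≤ p := Nat.pow_le_of_le_log hp.ne_zero hJ1
  have hpJ2 : p < 2 ^ 2 ^ (J + 1) := Nat.lt_pow_of_log_lt (by norm_num) hJ2
  obtain ⟨k, hk⟩ := Nat.exists_eq_add_of_le' (show e ≤ J by omega)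
  have hk1 : 1 ≤ k := by omega
  set Jz := k + M with hJz
  obtain ⟨A, hA, hAsum⟩ := hford k hk1
  have hz : (2 ^ 2 ^ Jz) ^ K ≤ p := by
    refine le_trans ?_ hpJ1
    rw [← pow_mul]
    apply Nat.pow_le_pow_right (by norm_num)
    rw [hJz, hk, pow_add, pow_add, Nat.mul_assoc, Nat.mul_comm (2 ^ M) K]
    exact Nat.mul_le_mul_left _ heK
  have ha100 : ∀ a ∈ A, a ^ 100 ≤ p := by
    intro a ha
    refine le_trans ?_ hpJ1
    calc a ^ 100 ≤ (2 ^ (D * 2 ^ k)) ^ 100 := Nat.pow_le_pow_left (hA a ha).2.2 _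
      _ = 2 ^ (D * 2 ^ k * 100) := (pow_mul _ _ _).symm
      _ ≤ 2 ^ 2 ^ J := by
        apply Nat.pow_le_pow_right (by norm_num)
        rw [hk, pow_add]
        calc D * 2 ^ k * 100 = 2 ^ k * (100 * D) := by ring
          _ ≤ 2 ^ k * 2 ^ e := Nat.mul_le_mul_left _ heD
  have hp0 : (0 : ℝ) < p := by exact_mod_cast hp.pos
  have hp1r : (1 : ℝ) ≤ p := by exact_mod_cast hp.one_lt.le
  have hUVp : (p : ℝ) ^ (94 / 100 : ℝ) * p ≤ U * V := by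
    calc (p : ℝ) ^ (94 / 100 : ℝ) * p = (p : ℝ) ^ (2 - 3 / 50 : ℝ) := by
          nth_rewrite 2 [← Real.rpow_one (p : ℝ)]
          rw [← Real.rpow_add hp0]; norm_num
      _ ≤ _ := hUV
  have hUp : (U : ℝ) ≤ p := by exact_mod_cast (show U ≤ p by omega)
  have hVp : (V : ℝ) ≤ p := by exact_mod_cast (show V ≤ p by omega)
  have hUlow : (p : ℝ) ^ (94 / 100 : ℝ) ≤ U := by
    have h1 : (p : ℝ) ^ (94 / 100 : ℝ) * p ≤ U * p :=
      hUVp.trans (mul_le_mul_of_nonneg_left hVp (Nat.cast_nonneg _))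
    exact le_of_mul_le_mul_right h1 hp0
  have hVlow : (p : ℝ) ^ (94 / 100 : ℝ) ≤ V := by
    have h1 : (p : ℝ) ^ (94 / 100 : ℝ) * p ≤ V * p := by
      refine hUVp.trans ?_
      rw [mul_comm (V : ℝ) p]
      exact mul_le_mul_of_nonneg_right hUp (Nat.cast_nonneg _)
    exact le_of_mul_le_mul_right h1 hp0
  have h10 : 10 * (p : ℝ) ^ (1 / 100 : ℝ) ≤ (p : ℝ) ^ (94 / 100 : ℝ) := by
    have h1 : (10 : ℝ) ≤ (p : ℝ) ^ (1 / 2 : ℝ) := by
      rw [← Real.sqrt_eq_rpow]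
      refine Real.le_sqrt_of_sq_le ?_
      have : (100 : ℝ) ≤ p := by exact_mod_cast hp100
      linarith
    calc 10 * (p : ℝ) ^ (1 / 100 : ℝ) ≤ (p : ℝ) ^ (1 / 2 : ℝ) * (p : ℝ) ^ (1 / 100 : ℝ) :=
          mul_le_mul_of_nonneg_right h1 (by positivity)
      _ = (p : ℝ) ^ (1 / 2 + 1 / 100 : ℝ) := (Real.rpow_add hp0 _ _).symm
      _ ≤ _ := Real.rpow_le_rpow_of_exponent_le hp1r (by norm_num)
  have h4Jz : (4 : ℝ) ^ Jz ≤ 4 ^ M * (Nat.log 2 p : ℝ) ^ 2 := by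
    have h1 : ((2 : ℝ) ^ J) ≤ (Nat.log 2 p : ℝ) := by exact_mod_cast hJ1
    calc (4 : ℝ) ^ Jz = 4 ^ M * 4 ^ k := by rw [hJz, pow_add]; ring
      _ ≤ 4 ^ M * 4 ^ J := by
        gcongr
        · norm_num
        · omega
      _ = 4 ^ M * ((2 : ℝ) ^ J) ^ 2 := by
        congr 1
        rw [← pow_mul, Nat.mul_comm, pow_mul]
        norm_num
      _ ≤ _ := by gcongr
  have hcount : ∀ a ∈ A, ∀ v ∈ a.divisors.image (Nat.log 2),
      c2 / 32 * (U * V / (p * (a * 4 ^ Jz))) ≤ ((Pr p cr U V Jz a v).card : ℝ) := by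
    intro a ha v hv
    have ha1 := (hA a ha).1
    have ha2 : a ^ 2 ≤ p := le_trans (Nat.pow_le_pow_right ha1 (by norm_num)) (ha100 a ha)
    have halt : a < p := by
      by_contra hcon
      push Not at hcon
      have h1 : p ^ 2 ≤ p := le_trans (Nat.pow_le_pow_left hcon 2) ha2
      nlinarith
    have hcop : a.Coprime p := by
      rw [Nat.coprime_comm, hp.coprime_iff_not_dvd]
      intro hd
      exact absurd (Nat.le_of_dvd ha1 hd) (not_le.2 halt)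
    have ha0 : (0 : ℝ) < a := by exact_mod_cast ha1
    have har : (a : ℝ) ≤ (p : ℝ) ^ (1 / 100 : ℝ) := by
      have h1 : ((a : ℝ) ^ (100 : ℕ)) ≤ p := by exact_mod_cast ha100 a ha
      have h2 : (a : ℝ) = ((a : ℝ) ^ (100 : ℕ)) ^ (1 / 100 : ℝ) := by
        rw [← Real.rpow_natCast, ← Real.rpow_mul ha0.le]
        norm_num
      rw [h2]
      exact Real.rpow_le_rpow (by positivity) h1 (by norm_num)
    have haU : 8 * a ≤ U := by
      have : (8 : ℝ) * a ≤ U := by linarith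
      exact_mod_cast this
    have haV : 2 * a ≤ V := by
      have : (2 : ℝ) * a ≤ V := by linarith
      exact_mod_cast this
    refine aux_count K c2 C2 hc2 (fun p hp J h r A U B V h1 h2 h3 =>
      (hps p hp J h r A U B V h1 h2 h3).1) p cr U V Jz a v hp hcr hU hV ha1 haU haV
      (aux_pow_le hv) hz hcop ?_
    rw [← mul_div_assoc, le_div_iff₀ (by positivity)]
    calc C2 * (p : ℝ) ^ (9 / 10 : ℝ) * (p * (a * 4 ^ Jz))
        ≤ C2 * (p : ℝ) ^ (9 / 10 : ℝ) * (p * ((p : ℝ) ^ (1 / 100 : ℝ) *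
          (4 ^ M * (Nat.log 2 p : ℝ) ^ 2))) := by gcongr
      _ = (C2 * (p : ℝ) ^ (9 / 10 : ℝ) * (p : ℝ) ^ (1 / 100 : ℝ) *
          (4 ^ M * (Nat.log 2 p : ℝ) ^ 2)) * p := by ring
      _ ≤ (c2 / 32 * (p : ℝ) ^ (94 / 100 : ℝ)) * p :=
          mul_le_mul_of_nonneg_right hlarge hp0.le
      _ = c2 / 32 * ((p : ℝ) ^ (94 / 100 : ℝ) * p) := by ring
      _ ≤ c2 / 32 * (U * V) := mul_le_mul_of_nonneg_left hUVp (by positivity)
  -- lower bound for the number of quadruples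
  have hScard : ((Sg p cr U V Jz A).card : ℝ) =
      ∑ a ∈ A, ∑ v ∈ a.divisors.image (Nat.log 2), ((Pr p cr U V Jz a v).card : ℝ) := by
    unfold Sg
    rw [Finset.card_sigma]
    push_cast
    exact Finset.sum_congr rfl fun a _ => by rw [Finset.card_sigma]; push_cast; rfl
  have hSlow : c2 / 32 * (U * V / (p * 4 ^ Jz)) * ∑ a ∈ A, (ell a : ℝ) / a ≤ ((Sg p cr U V Jz A).card : ℝ) := by
    rw [hScard, Finset.mul_sum]
    refine Finset.sum_le_sum fun a ha => ?_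
    calc c2 / 32 * (U * V / (p * 4 ^ Jz)) * ((ell a : ℝ) / a)
        = ∑ v ∈ a.divisors.image (Nat.log 2), c2 / 32 * (U * V / (p * (a * 4 ^ Jz))) := by
          rw [Finset.sum_const, nsmul_eq_mul]
          have ha0 : (a : ℝ) ≠ 0 := by
            have := (hA a ha).1
            positivity
          unfold ell
          field_simp
      _ ≤ _ := Finset.sum_le_sum fun v hv => hcount a ha v hv
  -- upper bound through the multiplicity
  have hppz : p * p ≤ 2 ^ (2 ^ Jz * s) := by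
    have h1 : 2 ^ Jz * s = 2 ^ (J + 1) + 2 ^ (J + 1) := by
      rw [hs, ← pow_add]
      have : Jz + (e + 2 - M) = (J + 1) + 1 := by omega
      rw [this, pow_succ]
      ring
    rw [h1, pow_add]
    exact Nat.mul_le_mul hpJ2.le hpJ2.le
  have hSup : (Sg p cr U V Jz A).card ≤ 2 ^ s * (NS p cr U V).card := by
    refine le_trans (Finset.card_le_mul_card_image
      (f := fun x : (Σ _ : ℕ, Σ _ : ℕ, ℕ × ℕ) => x.1 * (x.2.2.1 * x.2.2.2)) _ (2 ^ s) ?_) ?_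
    · intro N _
      exact aux_fiber p cr U V Jz s hp.one_lt.le hU hV hppz A (fun a ha => ⟨(hA a ha).1, (hA a ha).2.1⟩) N
    · apply Nat.mul_le_mul_left
      apply Finset.card_le_card
      intro N hN
      obtain ⟨⟨a, v, st⟩, hx, rfl⟩ := Finset.mem_image.1 hN
      unfold Sg at hx
      rw [Finset.mem_sigma] at hx
      obtain ⟨ha, hx⟩ := hx
      rw [Finset.mem_sigma] at hx
      obtain ⟨hv, hx⟩ := hx
      exact aux_mem_NS p cr U V Jz a v (hA a ha).1 hv st hx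
  have hSup' : ((Sg p cr U V Jz A).card : ℝ) ≤ 2 ^ s * ((NS p cr U V).card : ℝ) := by exact_mod_cast hSup
  -- assembly
  set x : ℝ := Real.exp 1 * Real.log 2 / 2 with hx
  have hx0 : 0 < x := by
    have := Real.log_pos (show (1 : ℝ) < 2 by norm_num)
    positivity
  have hx1 : x ≤ 1 := by
    have h1 := Real.exp_one_lt_d9
    have h2 := Real.log_two_lt_d9
    have h3 := Real.exp_pos 1
    have h4 := Real.log_pos (show (1 : ℝ) < 2 by norm_num)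
    rw [hx]
    nlinarith
  have hkpos : (0 : ℝ) < k := by exact_mod_cast hk1
  have hkJ : (k : ℝ) ≤ J := by
    have : k ≤ J := by omega
    exact_mod_cast this
  have hJpos : (0 : ℝ) < J := lt_of_lt_of_le hkpos hkJ
  have g1 : x ^ J / (J * Real.sqrt J) ≤ x ^ k / (k * Real.sqrt k) := by
    have h1 : x ^ J ≤ x ^ k := pow_le_pow_of_le_one hx0.le hx1 (by omega)
    have h2 : (k : ℝ) * Real.sqrt k ≤ J * Real.sqrt J := by
      gcongr
    have h3 : 0 < (k : ℝ) * Real.sqrt k := by positivity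
    gcongr
  have g2 : (2 * Real.exp 1 * Real.log 2) ^ k / 4 ^ Jz = x ^ k / 4 ^ M := by
    have : 2 * Real.exp 1 * Real.log 2 = 4 * x := by rw [hx]; ring
    rw [this, mul_pow, hJz, pow_add]
    have h1 : (4 : ℝ) ^ k ≠ 0 := by positivity
    have h2 : (4 : ℝ) ^ M ≠ 0 := by positivity
    field_simp
  have g3 : c2 / 32 * (U * V / (p * 4 ^ Jz)) * (c1 * ((2 * Real.exp 1 * Real.log 2) ^ k /
      (k * Real.sqrt k))) ≤ 2 ^ s * ((NS p cr U V).card : ℝ) :=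
    le_trans (mul_le_mul_of_nonneg_left hAsum (by positivity)) (le_trans hSlow hSup')
  have g4 : c2 / 32 * (U * V / (p * 4 ^ Jz)) * (c1 * ((2 * Real.exp 1 * Real.log 2) ^ k /
      (k * Real.sqrt k))) =
      c1 * (c2 / 32) / 4 ^ M * ((U * V / p) * (x ^ k / (k * Real.sqrt k))) := by
    calc c2 / 32 * (U * V / (p * 4 ^ Jz)) * (c1 * ((2 * Real.exp 1 * Real.log 2) ^ k /
      (k * Real.sqrt k))) = c1 * (c2 / 32) * (U * V / p) * ((2 * Real.exp 1 * Real.log 2) ^ k / 4 ^ Jz) /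
        (k * Real.sqrt k) := by ring
      _ = _ := by rw [g2]; ring
  rw [g4] at g3
  have g5 : c1 * (c2 / 32) / 4 ^ M * ((U * V / p) * (x ^ J / (J * Real.sqrt J))) ≤
      2 ^ s * ((NS p cr U V).card : ℝ) := by
    refine le_trans ?_ g3
    gcongr
  calc c1 * (c2 / 32) / (4 ^ M * 2 ^ s) * ((U * V / p) * (x ^ J / (J * Real.sqrt J)))
      = (c1 * (c2 / 32) / 4 ^ M * ((U * V / p) * (x ^ J / (J * Real.sqrt J)))) / 2 ^ s := by
        rw [← div_div]; ring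
    _ ≤ (2 ^ s * ((NS p cr U V).card : ℝ)) / 2 ^ s := by gcongr
    _ = ((NS p cr U V).card : ℝ) := by
        rw [mul_comm, mul_div_assoc, div_self (by positivity), mul_one]

end Pool.Agent.Y594.LPC
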