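import Pool.Agent.Helper112.Lp.Final
import Pool.Agent.Y594.LP.UA5c
import Pool.Agent.Y594.LP.Klac

open Finset
open Pool.Agent.Helper112.LP

namespace Pool.Agent.Y594.LPC

/-- the denominator of the order of magnitude -/
noncomputable def Wd (p : ℕ) : ℝ :=
  (Real.log p) ^ (1 - (1 + Real.log (Real.log 2)) / Real.log 2) *
    (Real.log (Real.log p)) ^ (3 / 2 : ℝ)

theorem Wd_pos {p : ℕ} (hp : 16 ≤ p) : 0 < Wd p := by
  have h1 : (16 : ℝ) ≤ p := by exact_mod_cast hp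
  have h2 : (1 : ℝ) < Real.log p := by
    have h3 : Real.log 16 ≤ Real.log p := Real.log_le_log (by norm_num) h1
    have h4 : Real.log 16 = 4 * Real.log 2 := by
      rw [show (16 : ℝ) = 2 ^ 4 by norm_num, Real.log_pow]; norm_num
    have := Real.log_two_gt_d9
    linarith
  have h3 : 0 < Real.log (Real.log p) := Real.log_pos h2
  unfold Wd
  positivity

/-- both bounds, in every residue class and in boxes -/
theorem both : ∃ c C : ℝ, 0 < c ∧ 0 < C ∧ ∃ p0 : ℕ, ∀ p : ℕ, p.Prime → p0 ≤ p →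
    ∀ cr : ℕ, cr.Coprime p → ∀ U V : ℕ, U ≤ p - 1 → V ≤ p - 1 →
    (p : ℝ) ^ (2 - 3 / 50 : ℝ) ≤ U * V →
    c * (U * V / p / Wd p) ≤ ((NS p cr U V).card : ℝ) ∧
    ((NS p cr U V).card : ℝ) ≤ C * (U * V / p / Wd p) := by
  obtain ⟨C1, p1, hC1, H1⟩ := upper_J
  obtain ⟨c2, p2, hc2, H2⟩ := lower_J
  obtain ⟨c3, C3, p3, hc3, hC3, H3⟩ := conv
  refine ⟨c2 * c3, C1 * C3, by positivity, by positivity, max p1 (max p2 p3), ?_⟩
  intro p hp hpp cr hcr U V hU hV hUV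
  have h1 : p1 ≤ p := le_trans (le_max_left _ _) hpp
  have h2 : p2 ≤ p := le_trans ((le_max_left _ _).trans (le_max_right _ _)) hpp
  have h3 : p3 ≤ p := le_trans ((le_max_right _ _).trans (le_max_right _ _)) hpp
  have a1 := H1 p h1 hp cr hcr U V hU hV hUV _ rfl
  have a2 := H2 p h2 hp cr hcr U V hU hV hUV _ rfl
  obtain ⟨a3, a4⟩ := H3 p h3 _ rfl
  have hpos : (0 : ℝ) < p := by exact_mod_cast hp.pos
  have hX : (0 : ℝ) ≤ (U : ℝ) * V / p := by positivity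
  rw [← Wd] at a3 a4
  constructor
  · refine le_trans ?_ a2
    calc _ = c2 * ((U * V / p) * (c3 * (1 / Wd p))) := by ring
      _ ≤ _ := mul_le_mul_of_nonneg_left (mul_le_mul_of_nonneg_left a3 hX) hc2.le
  · refine a1.trans ?_
    calc _ ≤ C1 * ((U * V / p) * (C3 * (1 / Wd p))) :=
          mul_le_mul_of_nonneg_left (mul_le_mul_of_nonneg_left a4 hX) hC1.le
      _ = _ := by ring

/-- the whole multiplication table -/
def TS (U V : ℕ) : Finset ℕ := (Icc 1 U ×ˢ Icc 1 V).image (fun uv => uv.1 * uv.2)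

theorem ts_card (p U V : ℕ) (hp : p.Prime) (hU : U ≤ p - 1) (hV : V ≤ p - 1) :
    (TS U V).card = ∑ r ∈ Ico 1 p, (NS p r U V).card := by
  have hp1 := hp.one_lt
  have hdisj : ∀ r ∈ Ico 1 p, ∀ s ∈ Ico 1 p, r ≠ s → Disjoint (NS p r U V) (NS p s U V) := by
    intro r hr s hs hrs
    rw [mem_Ico] at hr hs
    rw [disjoint_left]
    intro m hm hm'
    rw [NS, mem_image] at hm hm'
    obtain ⟨x, hx, rfl⟩ := hm
    obtain ⟨y, hy, hxy⟩ := hm'
    rw [mem_filter] at hx hy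
    have h1 : r ≡ s [MOD p] := hx.2.symm.trans (by
      have h2 := hy.2
      rwa [hxy] at h2)
    unfold Nat.ModEq at h1
    rw [Nat.mod_eq_of_lt hr.2, Nat.mod_eq_of_lt hs.2] at h1
    exact hrs h1
  rw [← card_biUnion hdisj]
  congr 1
  ext m
  rw [TS, mem_image, mem_biUnion]
  constructor
  · rintro ⟨x, hx, rfl⟩
    rw [mem_product, mem_Icc, mem_Icc] at hx
    have hnd : ¬ p ∣ x.1 * x.2 := by
      intro h
      rcases (Nat.Prime.dvd_mul hp).1 h with h | h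
      · have := Nat.le_of_dvd (by omega) h; omega
      · have := Nat.le_of_dvd (by omega) h; omega
    refine ⟨(x.1 * x.2) % p, ?_, ?_⟩
    · rw [mem_Ico]
      refine ⟨?_, Nat.mod_lt _ hp.pos⟩
      exact Nat.pos_of_ne_zero (fun h => hnd (Nat.dvd_of_mod_eq_zero h))
    · rw [NS, mem_image]
      refine ⟨x, ?_, rfl⟩
      rw [mem_filter, mem_product, mem_Icc, mem_Icc]
      exact ⟨hx, (Nat.mod_modEq _ _).symm⟩
  · rintro ⟨r, _, hm⟩
    rw [NS, mem_image] at hm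
    obtain ⟨x, hx, rfl⟩ := hm
    exact ⟨x, (mem_filter.1 hx).1, rfl⟩

theorem coprime_of_mem {p r : ℕ} (hp : p.Prime) (hr : r ∈ Ico 1 p) : r.Coprime p := by
  rw [mem_Ico] at hr
  rw [Nat.coprime_comm, hp.coprime_iff_not_dvd]
  intro h
  have := Nat.le_of_dvd (by omega) h
  omega

/-- comparison of one residue class with the whole multiplication table -/
theorem equi : ∃ c C : ℝ, 0 < c ∧ 0 < C ∧ ∃ p0 : ℕ, ∀ p : ℕ, p.Prime → p0 ≤ p →
    ∀ cr : ℕ, cr.Coprime p → ∀ U V : ℕ, U ≤ p - 1 → V ≤ p - 1 →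
    (p : ℝ) ^ (2 - 3 / 50 : ℝ) ≤ U * V →
    c * (U * V / p / Wd p) ≤ ((NS p cr U V).card : ℝ) ∧
    ((NS p cr U V).card : ℝ) ≤ C * (U * V / p / Wd p) ∧
    c * ((TS U V).card / p) ≤ ((NS p cr U V).card : ℝ) ∧
    ((NS p cr U V).card : ℝ) ≤ C * ((TS U V).card / p) := by
  obtain ⟨c, C, hc, hC, p0, H⟩ := both
  refine ⟨min c (c / C), max C (2 * C / c), by positivity, by positivity, max p0 16, ?_⟩
  intro p hp hpp cr hcr U V hU hV hUV
  have h0 : p0 ≤ p := le_trans (le_max_left _ _) hpp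
  have h16 : 16 ≤ p := le_trans (le_max_right _ _) hpp
  have hpos : (0 : ℝ) < p := by exact_mod_cast hp.pos
  have hW := Wd_pos h16
  obtain ⟨b1, b2⟩ := H p hp h0 cr hcr U V hU hV hUV
  set X : ℝ := U * V / p / Wd p with hX
  have hX0 : 0 ≤ X := by positivity
  have hT : ((TS U V).card : ℝ) = ∑ r ∈ Ico 1 p, ((NS p r U V).card : ℝ) := by
    rw [ts_card p U V hp hU hV]; push_cast; rfl
  have hTu : ((TS U V).card : ℝ) ≤ p * (C * X) := by
    rw [hT]
    calc ∑ r ∈ Ico 1 p, ((NS p r U V).card : ℝ) ≤ ∑ r ∈ Ico 1 p, C * X :=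
          sum_le_sum (fun r hr => (H p hp h0 r (coprime_of_mem hp hr) U V hU hV hUV).2)
      _ = ((p - 1 : ℕ) : ℝ) * (C * X) := by rw [sum_const, Nat.card_Ico, nsmul_eq_mul]
      _ ≤ _ := by
          refine mul_le_mul_of_nonneg_right ?_ (by positivity)
          exact_mod_cast Nat.sub_le p 1
  have hTl : (p : ℝ) / 2 * (c * X) ≤ ((TS U V).card : ℝ) := by
    rw [hT]
    calc (p : ℝ) / 2 * (c * X) ≤ ((p - 1 : ℕ) : ℝ) * (c * X) := by
          refine mul_le_mul_of_nonneg_right ?_ (by positivity)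
          rw [Nat.cast_sub (by omega)]
          have : (16 : ℝ) ≤ p := by exact_mod_cast h16
          push_cast; linarith
      _ = ∑ r ∈ Ico 1 p, c * X := by rw [sum_const, Nat.card_Ico, nsmul_eq_mul]
      _ ≤ _ := sum_le_sum (fun r hr => (H p hp h0 r (coprime_of_mem hp hr) U V hU hV hUV).1)
  refine ⟨?_, ?_, ?_, ?_⟩
  · exact (mul_le_mul_of_nonneg_right (min_le_left _ _) hX0).trans b1
  · exact b2.trans (mul_le_mul_of_nonneg_right (le_max_left _ _) hX0)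
  · have h1 : ((TS U V).card : ℝ) / p ≤ C * X := by
      rw [div_le_iff₀ hpos]; linarith
    calc min c (c / C) * ((TS U V).card / p) ≤ (c / C) * (C * X) :=
          mul_le_mul (min_le_right _ _) h1 (by positivity) (by positivity)
      _ = c * X := by field_simp
      _ ≤ _ := b1
  · have h1 : c * X / 2 ≤ ((TS U V).card : ℝ) / p := by
      rw [le_div_iff₀ hpos]; linarith
    calc ((NS p cr U V).card : ℝ) ≤ C * X := b2
      _ = (2 * C / c) * (c * X / 2) := by field_simp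
      _ ≤ max C (2 * C / c) * ((TS U V).card / p) :=
          mul_le_mul (le_max_right _ _) h1 (by positivity) (by positivity)

theorem ns_ncard (p r U V : ℕ) :
    Set.ncard {m : ℕ | ∃ a b : ℕ, 1 ≤ a ∧ a ≤ U ∧ 1 ≤ b ∧ b ≤ V ∧ a * b = m ∧ m ≡ r [MOD p]} =
      (NS p r U V).card := by
  rw [← Set.ncard_coe_finset]
  congr 1
  ext m
  simp only [Set.mem_ofPred_eq, NS, coe_image, coe_filter, mem_product, mem_Icc, Set.mem_image]
  constructor
  · rintro ⟨a, b, h1, h2, h3, h4, rfl, h5⟩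
    exact ⟨(a, b), ⟨⟨⟨h1, h2⟩, h3, h4⟩, h5⟩, rfl⟩
  · rintro ⟨⟨a, b⟩, ⟨⟨⟨h1, h2⟩, h3, h4⟩, h5⟩, rfl⟩
    exact ⟨a, b, h1, h2, h3, h4, rfl, h5⟩

theorem ts_ncard (U V : ℕ) :
    Set.ncard {m : ℕ | ∃ a b : ℕ, 1 ≤ a ∧ a ≤ U ∧ 1 ≤ b ∧ b ≤ V ∧ a * b = m} =
      (TS U V).card := by
  rw [← Set.ncard_coe_finset]
  congr 1
  ext m
  simp only [Set.mem_ofPred_eq, TS, coe_image, coe_product, coe_Icc, Set.mem_image, Set.mem_prod,
    Set.mem_Icc]
  constructor
  · rintro ⟨a, b, h1, h2, h3, h4, rfl⟩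
    exact ⟨(a, b), ⟨⟨h1, h2⟩, h3, h4⟩, rfl⟩
  · rintro ⟨⟨a, b⟩, ⟨⟨h1, h2⟩, h3, h4⟩, rfl⟩
    exact ⟨a, b, h1, h2, h3, h4, rfl⟩

/-- products in the class of one give small values of `n` -/
theorem ns_le (p V : ℕ) (hp : p.Prime) (hV : V ≤ p - 1) :
    (NS p 1 (p - 1) V).card ≤ Set.ncard {n : ℕ | n ≤ V ∧ ∃ a b : ℕ, 1 ≤ a ∧ a ≤ p - 1 ∧
      0 < b ∧ b < p ∧ a * b = n * p + 1} := by
  have hinj : Function.Injective (fun n : ℕ => n * p + 1) := by
    intro a b hab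
    simp only [Nat.add_right_cancel_iff] at hab
    exact Nat.eq_of_mul_eq_mul_right hp.pos hab
  have hfin : Set.Finite {n : ℕ | n ≤ V ∧ ∃ a b : ℕ, 1 ≤ a ∧ a ≤ p - 1 ∧
      0 < b ∧ b < p ∧ a * b = n * p + 1} :=
    (Set.finite_Iic V).subset (fun n hn => hn.1)
  rw [← Set.ncard_image_of_injective _ hinj, ← Set.ncard_coe_finset]
  refine Set.ncard_le_ncard ?_ (hfin.image _)
  intro m hm
  simp only [NS, coe_image, coe_filter, mem_product, mem_Icc, Set.mem_image,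
    Set.mem_ofPred_eq] at hm
  obtain ⟨⟨a, b⟩, ⟨⟨⟨h1, h2⟩, h3, h4⟩, h5⟩, rfl⟩ := hm
  simp only at h1 h2 h3 h4 h5 ⊢
  have hp1 := hp.one_lt
  have e1 : (a * b) % p = 1 := by
    rw [Nat.ModEq, Nat.mod_eq_of_lt hp.one_lt] at h5; exact h5
  have e2 : a * b / p * p + 1 = a * b := by
    have := Nat.div_add_mod (a * b) p
    rw [e1] at this
    rw [mul_comm]; exact this
  refine ⟨a * b / p, ⟨?_, a, b, h1, h2, h3, by omega, e2.symm⟩, e2⟩
  refine Nat.div_le_of_le_mul ?_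
  exact Nat.mul_le_mul (by omega) h4

end Pool.Agent.Y594.LPC
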